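import Pool.Agent.Y987.SZ.PolyU

set_option autoImplicit false

/-!
# Splittings `n = a + b` of odd `n` with `a² + b²` almost prime, and progressions of such `a`
-/

namespace Pool.Agent.Results.MP_b700cf_nt.AlmostPrimeSquareSums

/-- `0 < a < n`, and `a² + (n - a)²` has no prime factor `≤ y`. -/
def Rough (n : ℕ) (y : ℝ) (a : ℕ) : Prop :=
  0 < a ∧ a < n ∧ ∀ p : ℕ, p.Prime → p ∣ a ^ 2 + (n - a) ^ 2 → y < (p : ℝ)

/-- `0 < a < n`, and `a² + (n - a)²` has at most `r` prime factors (with multiplicity), all larger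
than `y`. -/
def Almost (n r : ℕ) (y : ℝ) (a : ℕ) : Prop :=
  Rough n y a ∧ (a ^ 2 + (n - a) ^ 2).primeFactorsList.length ≤ r

open Classical in
/-- the number of the classes `c` modulo `p` for which `p` divides `c² + (n - c)²` -/
noncomputable def nu (n p : ℕ) : ℕ :=
  ((Finset.range p).filter (fun c : ℕ => (p : ℤ) ∣ (c : ℤ) ^ 2 + ((n : ℤ) - c) ^ 2)).card

/-- the sieve density: the product of `1 - ν(p) / p` over the primes `p ≤ y` -/
noncomputable def V (n : ℕ) (y : ℝ) : ℝ :=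
  ∏ p ∈ (Finset.Ioc 0 ⌊y⌋₊).filter Nat.Prime, (1 - (nu n p : ℝ) / p)

/-- `m` is a term of a progression of `k` terms of `S` with a difference `d`, `1 ≤ d ≤ L`. -/
def InProgression (k : ℕ) (L : ℝ) (S : Set ℕ) (m : ℕ) : Prop :=
  ∃ a d : ℕ, 1 ≤ d ∧ (d : ℝ) ≤ L ∧ (∀ j < k, a + j * d ∈ S) ∧ ∃ j < k, m = a + j * d

open Finset Filter
open Pool.Agent.Y987.SZ
open Pool.Agent.Y987.SZ.PolyU
open Pool.Agent.Y843.HS (Pr VV)

/-- the values -/
def ff (n : ℕ) (_ : ℤ) (a : ℕ) : ℤ := (a : ℤ) ^ 2 + ((n : ℤ) - a) ^ 2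

lemma zf_eq (n p : ℕ) : (ZF {0} (ff n) p).card = nu n p := by
  classical
  unfold ZF nu
  congr 1
  ext c
  simp [ff]

lemma V_eq (n : ℕ) (z : ℝ) : V n z = VV (ZF {0} (ff n)) 0 ⌊z⌋₊ := by
  unfold V VV
  apply Finset.prod_congr rfl
  intro p _
  rw [zf_eq]

lemma cast0 {n a : ℕ} (e : ℤ) (h : a ≤ n) : ((a ^ 2 + (n - a) ^ 2 : ℕ) : ℤ) = ff n e a := by
  unfold ff
  push_cast [Nat.cast_sub h]
  ring

lemma rough_iff (n : ℕ) (hn : 1 ≤ n) (z : ℝ) (a : ℕ) :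
    RoughF {0} (ff n) (n - 1) z a ↔ Rough n z a := by
  unfold RoughF Rough
  constructor
  · rintro ⟨h1, h2, h3⟩
    refine ⟨h1, by omega, ?_⟩
    have ha : a ≤ n := by omega
    intro p hp hd
    apply h3 0 (by simp) p hp
    rw [← cast0 0 ha]
    exact_mod_cast hd
  · rintro ⟨h1, h2, h3⟩
    refine ⟨h1, by omega, ?_⟩
    have ha : a ≤ n := by omega
    intro e _ p hp hd
    apply h3 p hp
    rw [← cast0 e ha] at hd
    exact_mod_cast hd

lemma per (n : ℕ) : Per {0} (ff n) := by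
  intro e _ p a _
  apply dvd_iff_dvd_of_dvd_sub
  have h : ((a % p : ℕ) : ℤ) ≡ (a : ℤ) [ZMOD (p : ℤ)] := by
    push_cast
    exact Int.mod_modEq _ _
  have h1 : (n : ℤ) - ((a % p : ℕ) : ℤ) ≡ (n : ℤ) - a [ZMOD (p : ℤ)] := Int.ModEq.sub_left (n : ℤ) h
  exact ((h.pow 2).add (h1.pow 2)).dvd

lemma not_dvd {p a b : ℕ} (ha : a < p) (hb : b < p) (hab : a ≠ b) : ¬ (p : ℤ) ∣ (a : ℤ) - b := by
  intro h
  have h1 : |(a : ℤ) - b| < p := by
    rw [abs_lt]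
    constructor <;> omega
  have := Int.eq_zero_of_abs_lt_dvd h h1
  omega

lemma card_le (n : ℕ) (hn : Odd n) (p : ℕ) (hp : p.Prime) :
    (ZF {0} (ff n) p).card ≤ 2 ∧ (ZF {0} (ff n) p).card < p := by
  classical
  by_cases hp2 : p = 2
  · have h0 : ZF {0} (ff n) p = ∅ := by
      rw [Finset.eq_empty_iff_forall_notMem]
      intro c hc
      obtain ⟨_, e, _, hd⟩ := mem_filter.1 hc
      rw [hp2] at hd
      have hd' : Even (ff n e c) := by
        rw [even_iff_two_dvd]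
        exact_mod_cast hd
      unfold ff at hd'
      rw [Int.even_add, Int.even_pow' two_ne_zero, Int.even_pow' two_ne_zero, Int.even_sub] at hd'
      have h1 : ¬ Even (n : ℤ) := by
        rw [Int.even_coe_nat, Nat.not_even_iff_odd]
        exact hn
      tauto
    rw [h0, card_empty]
    exact ⟨by omega, hp.pos⟩
  · have hp3 : 2 < p := lt_of_le_of_ne hp.two_le (Ne.symm hp2)
    have h2 : (ZF {0} (ff n) p).card ≤ 2 := by
      by_contra hcon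
      push Not at hcon
      obtain ⟨a, ha, b, hb, c, hc, hab, hac, hbc⟩ := Finset.two_lt_card.1 hcon
      obtain ⟨ha1, ea, _, ha2⟩ := mem_filter.1 ha
      obtain ⟨hb1, eb, _, hb2⟩ := mem_filter.1 hb
      obtain ⟨hc1, ec, _, hc2⟩ := mem_filter.1 hc
      rw [mem_range] at ha1 hb1 hc1
      have hpz : Prime (p : ℤ) := Nat.prime_iff_prime_int.1 hp
      have key : ∀ x y : ℕ, x < p → y < p → x ≠ y → (p : ℤ) ∣ ff n 0 x → (p : ℤ) ∣ ff n 0 y →
          (p : ℤ) ∣ 2 * ((x : ℤ) + y - n) := by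
        intro x y hx hy hxy h1 h2
        have h3 : (p : ℤ) ∣ ((x : ℤ) - y) * (2 * ((x : ℤ) + y - n)) := by
          have h4 : ((x : ℤ) - y) * (2 * ((x : ℤ) + y - n)) = ff n 0 x - ff n 0 y := by
            unfold ff
            ring
          rw [h4]
          exact dvd_sub h1 h2
        exact (hpz.dvd_or_dvd h3).resolve_left (not_dvd hx hy hxy)
      have h1 := key a b ha1 hb1 hab ha2 hb2
      have h2 := key a c ha1 hc1 hac ha2 hc2
      have h3 : (p : ℤ) ∣ ((b : ℤ) - c) * 2 := by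
        have h4 : ((b : ℤ) - c) * 2 = 2 * ((a : ℤ) + b - n) - 2 * ((a : ℤ) + c - n) := by ring
        rw [h4]
        exact dvd_sub h1 h2
      have h6 := (hpz.dvd_or_dvd h3).resolve_left (not_dvd hb1 hc1 hbc)
      have h7 : p ∣ 2 := by exact_mod_cast h6
      exact hp2 ((Nat.prime_dvd_prime_iff_eq hp Nat.prime_two).1 h7)
    exact ⟨h2, by omega⟩

/-- **Splittings `n = a + b` with `a² + b²` almost prime.** -/
theorem result : ∃ (κ₀ c : ℝ) (r : ℕ), 0 < κ₀ ∧ 0 < c ∧ ∀ k : ℕ, ∀ κ ε : ℝ, 0 < κ → 0 < ε →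
    ∃ B n₀ : ℕ, ∀ n : ℕ, n₀ ≤ n → Odd n →
      (∀ y : ℝ, 0 ≤ y → 0 < V n y) ∧
      c * (n * V n (((n - 1 : ℕ) : ℝ) ^ κ₀)) ≤
        ({a | Almost n r (((n - 1 : ℕ) : ℝ) ^ κ₀) a}.ncard : ℝ) ∧
      (∃ a d : ℕ, 1 ≤ d ∧ (d : ℝ) ≤ Real.log n ^ B ∧
        ∀ j < k, Almost n r (((n - 1 : ℕ) : ℝ) ^ κ₀) (a + j * d)) ∧
      ∀ S : Set ℕ, (∀ a ∈ S, Rough n (((n - 1 : ℕ) : ℝ) ^ κ) a) →
        ({a ∈ S | ¬ InProgression (k + 1) (Real.log n ^ B) S a}.ncard : ℝ) ≤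
          ε * (n * V n (((n - 1 : ℕ) : ℝ) ^ κ)) := by
  obtain ⟨κ₀, c, r, hκ₀, hc, H⟩ := PolyU.main 2
  refine ⟨κ₀, c / 2, r, hκ₀, by positivity, ?_⟩
  intro k κ ε hκ hε
  obtain ⟨B, X₀, h⟩ := H k κ ε hκ hε
  refine ⟨B, X₀ + 5, ?_⟩
  intro n hn hodd
  have hcard := card_le n hodd
  obtain ⟨h1, h2, h3, h4⟩ := h (n - 1) (by omega) {0} (ff n) (per n) hcard
  have hn5 : 5 ≤ n := by omega
  have hn1 : 1 ≤ n := by omega
  have hcast : ((n - 1 : ℕ) : ℝ) = (n : ℝ) - 1 := by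
    rw [Nat.cast_sub hn1, Nat.cast_one]
  have hnr : (5 : ℝ) ≤ n := by exact_mod_cast hn5
  have hlog : Real.log ((n - 1 : ℕ) : ℝ) ^ B ≤ Real.log n ^ B := by
    apply pow_le_pow_left₀ (Real.log_nonneg (by rw [hcast]; linarith))
    apply Real.log_le_log (by rw [hcast]; linarith)
    rw [hcast]
    linarith
  have hV : ∀ y : ℝ, 0 ≤ y → 0 < V n y := fun y hy => by
    rw [V_eq]
    exact VV_pos (adm_of hcard y) hy 0
  -- the number of prime factors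
  have halm : ∀ a : ℕ, RoughF {0} (ff n) (n - 1) (((n - 1 : ℕ) : ℝ) ^ κ₀) a →
      Almost n r (((n - 1 : ℕ) : ℝ) ^ κ₀) a := by
    intro a ha
    have hr := (rough_iff n hn1 _ a).1 ha
    have han : a ≤ n := hr.2.1.le
    have e1 : ((n - 1 : ℕ) : ℤ) = (n : ℤ) - 1 := by omega
    have ha0 : (1 : ℤ) ≤ a := by exact_mod_cast hr.1
    have ha1 : (a : ℤ) ≤ (n : ℤ) - 1 := by
      have := hr.2.1
      omega
    have hnz : (5 : ℤ) ≤ n := by exact_mod_cast hn5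
    set N : ℤ := (n : ℤ) - 1 with hN
    have hN4 : (4 : ℤ) ≤ N := by omega
    have hb0 : 0 ≤ (n : ℤ) - a := by omega
    have hb1 : (n : ℤ) - a ≤ N := by omega
    have hN2 : 0 ≤ N ^ 2 := by positivity
    have hN3 : 4 * N ^ 2 ≤ N ^ 3 := by nlinarith
    have hsq : ((n : ℤ) - a) ^ 2 ≤ N ^ 2 := pow_le_pow_left₀ hb0 hb1 2
    have hsq' : (a : ℤ) ^ 2 ≤ N ^ 2 := pow_le_pow_left₀ (by linarith) ha1 2
    refine ⟨hr, ?_⟩
    have h5 := h1 (ff n 0 a) (by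
      rw [e1]
      unfold ff
      have h6 : 0 ≤ ((n : ℤ) - a) ^ 2 := by positivity
      have h7 : 0 ≤ (a : ℤ) ^ 2 := by positivity
      rw [abs_le]
      constructor
      · linarith
      · linarith) (fun p hp hd => ha.2.2 0 (by simp) p hp hd)
    rw [← cast0 0 han, Int.natAbs_natCast] at h5
    exact h5
  refine ⟨hV, ?_, ?_, ?_⟩
  · have hfin : {a | Almost n r (((n - 1 : ℕ) : ℝ) ^ κ₀) a}.Finite :=
      (Set.finite_Icc 0 n).subset (fun m hm => ⟨Nat.zero_le _, hm.1.2.1.le⟩)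
    have h5 : ({m | RoughF {0} (ff n) (n - 1) (((n - 1 : ℕ) : ℝ) ^ κ₀) m}.ncard : ℝ) ≤
        ({a | Almost n r (((n - 1 : ℕ) : ℝ) ^ κ₀) a}.ncard : ℝ) := by
      rw [Nat.cast_le]
      exact Set.ncard_le_ncard (fun a ha => halm a ha) hfin
    refine le_trans ?_ (h2.trans h5)
    rw [V_eq]
    have h6 : 0 < VV (ZF {0} (ff n)) 0 ⌊((n - 1 : ℕ) : ℝ) ^ κ₀⌋₊ :=
      VV_pos (adm_of hcard _) (by positivity) 0
    have h7 : (n : ℝ) / 2 ≤ ((n - 1 : ℕ) : ℝ) := by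
      rw [hcast]
      linarith
    have h8 : (n : ℝ) / 2 * VV (ZF {0} (ff n)) 0 ⌊((n - 1 : ℕ) : ℝ) ^ κ₀⌋₊ ≤
        ((n - 1 : ℕ) : ℝ) * VV (ZF {0} (ff n)) 0 ⌊((n - 1 : ℕ) : ℝ) ^ κ₀⌋₊ :=
      mul_le_mul_of_nonneg_right h7 h6.le
    have h9 := mul_le_mul_of_nonneg_left h8 hc.le
    linarith
  · obtain ⟨a, d, i1, i2, i3⟩ := h3
    exact ⟨a, d, i1, i2.trans hlog, fun j hj => halm _ (i3 j hj)⟩
  · intro S hS
    have h5 := h4 S (fun a ha => (rough_iff n hn1 _ a).2 (hS a ha))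
    have h6 : ({a ∈ S | ¬ InProgression (k + 1) (Real.log n ^ B) S a}.ncard : ℝ) ≤
        ({m ∈ S | ¬ InP (k + 1) (Real.log ((n - 1 : ℕ) : ℝ) ^ B) S m}.ncard : ℝ) := by
      rw [Nat.cast_le]
      apply Set.ncard_le_ncard
      · intro m hm
        refine ⟨hm.1, ?_⟩
        intro hAP
        apply hm.2
        obtain ⟨a, d, i1, i2, i3⟩ := hAP
        exact ⟨a, d, i1, i2.trans hlog, i3⟩
      · exact ((Set.finite_Icc 0 n).subset (fun m hm => ⟨Nat.zero_le _, (hS m hm).2.1.le⟩)).subset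
          (fun m hm => hm.1)
    refine h6.trans (h5.trans ?_)
    rw [V_eq]
    have h7 : 0 < VV (ZF {0} (ff n)) 0 ⌊((n - 1 : ℕ) : ℝ) ^ κ⌋₊ :=
      VV_pos (adm_of hcard _) (by positivity) 0
    have h8 : ((n - 1 : ℕ) : ℝ) ≤ n := by
      rw [hcast]
      linarith
    exact mul_le_mul_of_nonneg_left (mul_le_mul_of_nonneg_right h8 h7.le) hε.le

end Pool.Agent.Results.MP_b700cf_nt.AlmostPrimeSquareSums
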